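import Mathlib

set_option autoImplicit false

namespace Pool.Agent.H.MP_745574_co

/-- Real Euclidean space of dimension `m`. -/
abbrev E (m : ℕ) := EuclideanSpace ℝ (Fin m)

/-- Dimension of the affine hull (the empty set gets `0` and is treated separately when needed). -/
noncomputable def dim {m : ℕ} (A : Set (E m)) : ℕ := Module.finrank ℝ (vectorSpan ℝ A)

/-- A (possibly empty) convex polytope: the convex hull of finitely many points. -/
def IsPolytope {m : ℕ} (P : Set (E m)) : Prop :=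
  ∃ V : Finset (E m), P = convexHull ℝ (V : Set (E m))

/-- A `d`-polytope. -/
def IsDPolytope {m : ℕ} (d : ℕ) (P : Set (E m)) : Prop :=
  IsPolytope P ∧ P.Nonempty ∧ dim P = d

/-- All faces of `P`, the empty face and `P` itself included: the sets cut out by a valid
linear inequality. -/
def faces {m : ℕ} (P : Set (E m)) : Set (Set (E m)) :=
  {F | ∃ (f : E m →ₗ[ℝ] ℝ) (c : ℝ), (∀ x ∈ P, f x ≤ c) ∧ F = {x | x ∈ P ∧ f x = c}}

/-- The `k`-skeleton: faces of dimension at most `k`. -/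
def skel {m : ℕ} (k : ℕ) (P : Set (E m)) : Set (Set (E m)) :=
  {F | F ∈ faces P ∧ dim F ≤ k}

/-- A finite polyhedral complex of dimension `k`. -/
def IsComplex {m : ℕ} (k : ℕ) (C : Set (Set (E m))) : Prop :=
  C.Finite ∧ (∀ A ∈ C, IsPolytope A) ∧ (∀ A ∈ C, faces A ⊆ C) ∧
    (∀ A ∈ C, ∀ B ∈ C, A ∩ B ∈ faces A ∧ A ∩ B ∈ faces B) ∧
    (∀ A ∈ C, dim A ≤ k) ∧ ∃ A ∈ C, A.Nonempty ∧ dim A = k

/-- Strong `d`-ambiguity of the `k`-complex `C`; `≃o` is a bijection preserving inclusion in both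
directions. -/
def Strong {m : ℕ} (d k : ℕ) (C : Set (Set (E m))) : Prop :=
  ∃ (a b : ℕ) (P : Set (E a)) (P' : Set (E b)), IsDPolytope d P ∧ IsDPolytope d P' ∧
    IsEmpty (faces P ≃o faces P') ∧ Nonempty (C ≃o skel k P) ∧ Nonempty (C ≃o skel k P') ∧
    Nonempty (skel k P ≃o skel k P')

/-- Weak `d`-ambiguity of the `k`-complex `C`. -/
def Weak {m : ℕ} (d k : ℕ) (C : Set (Set (E m))) : Prop :=
  ∃ (a : ℕ) (P : Set (E a)), IsDPolytope d P ∧ ∃ φ ψ : C ≃o skel k P,
    ¬ ∃ Φ : faces P ≃o faces P, ∀ F : skel k P,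
      ((Φ ⟨F.1, F.2.1⟩ : faces P) : Set (E a)) = ((φ (ψ.symm F) : skel k P) : Set (E a))

end Pool.Agent.H.MP_745574_co
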