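import Mathlib
import Pool.Agent.H.MP_745574_co.D

set_option autoImplicit false

namespace Pool.Agent.H.MP_745574_co
open Set

variable {m n : ℕ}

def Hu (v : Fin n → E m) (S : Finset (Fin n)) : Set (E m) := convexHull ℝ (v '' (S : Set (Fin n)))

def FS (v : Fin n → E m) (S : Finset (Fin n)) : Prop :=
  ∃ (f : E m →ₗ[ℝ] ℝ) (c : ℝ), (∀ i, f (v i) ≤ c) ∧ ∀ i, (f (v i) = c ↔ i ∈ S)

lemma H_mono (v : Fin n → E m) {S T : Finset (Fin n)} (h : S ⊆ T) : Hu v S ⊆ Hu v T :=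
  convexHull_mono (image_mono (by exact_mod_cast h))

lemma mem_H (v : Fin n → E m) {S : Finset (Fin n)} {i : Fin n} (h : i ∈ S) : v i ∈ Hu v S :=
  subset_convexHull ℝ _ ⟨i, by exact_mod_cast h, rfl⟩

lemma H_le (v : Fin n → E m) (S : Finset (Fin n)) (f : E m →ₗ[ℝ] ℝ) (c : ℝ)
    (h : ∀ i ∈ S, f (v i) ≤ c) : ∀ x ∈ Hu v S, f x ≤ c := by
  intro x hx
  refine convexHull_min (t := {x | f x ≤ c}) ?_ (convex_halfSpace_le f.isLinear c) hx
  rintro _ ⟨i, hi, rfl⟩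
  exact h i (by exact_mod_cast hi)

lemma H_eq (v : Fin n → E m) (S : Finset (Fin n)) (f : E m →ₗ[ℝ] ℝ) (c : ℝ)
    (h : ∀ i ∈ S, f (v i) = c) : ∀ x ∈ Hu v S, f x = c := by
  intro x hx
  refine convexHull_min (t := {x | f x = c}) ?_ (convex_hyperplane f.isLinear c) hx
  rintro _ ⟨i, hi, rfl⟩
  exact h i (by exact_mod_cast hi)

open Classical in
lemma face_eq (v : Fin n → E m) (T : Finset (Fin n)) (f : E m →ₗ[ℝ] ℝ) (c : ℝ)
    (h : ∀ i ∈ T, f (v i) ≤ c) :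
    {x | x ∈ Hu v T ∧ f x = c} = Hu v (T.filter fun i => f (v i) = c) := by
  apply Subset.antisymm
  · rintro x ⟨hx, hc⟩
    have e : v '' (T : Set (Fin n)) = range (fun i : T => v i) := by
      ext y; simp
    rw [Hu, e, convexHull_range_eq_exists_affineCombination] at hx
    obtain ⟨s, w, hw0, hw1, rfl⟩ := hx
    rw [Finset.affineCombination_eq_linear_combination _ _ _ hw1] at hc ⊢
    have z : ∑ i ∈ s, w i * (c - f (v i)) = 0 := by
      simp only [mul_sub, Finset.sum_sub_distrib, ← Finset.sum_mul, hw1, one_mul]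
      rw [← hc]; simp [map_sum]
    rw [Finset.sum_eq_zero_iff_of_nonneg
      (fun i hi => mul_nonneg (hw0 i hi) (sub_nonneg.2 (h i i.2)))] at z
    rw [← Finset.sum_filter_of_ne (p := fun i => w i ≠ 0) (fun i _ hi e => hi (by simp [e]))]
    apply (convex_convexHull ℝ _).sum_mem (fun i hi => hw0 i (Finset.mem_filter.1 hi).1)
    · rw [Finset.sum_filter_ne_zero, hw1]
    · intro i hi
      obtain ⟨h1, h2⟩ := Finset.mem_filter.1 hi
      have := (mul_eq_zero.1 (z i h1)).resolve_left h2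
      exact mem_H v (Finset.mem_filter.2 ⟨i.2, by linarith⟩)
  · intro x hx
    exact ⟨H_mono v (Finset.filter_subset _ _) hx,
      H_eq v _ f c (fun i hi => (Finset.mem_filter.1 hi).2) x hx⟩

lemma mem_faces (v : Fin n → E m) (F : Set (E m)) :
    F ∈ faces (Hu v Finset.univ) ↔ ∃ S, FS v S ∧ F = Hu v S := by
  classical
  constructor
  · rintro ⟨f, c, h, rfl⟩
    have h' : ∀ i, f (v i) ≤ c := fun i => h _ (mem_H v (Finset.mem_univ i))
    exact ⟨_, ⟨f, c, h', fun i => by simp⟩, face_eq v _ f c fun i _ => h' i⟩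
  · rintro ⟨S, ⟨f, c, h, h2⟩, rfl⟩
    refine ⟨f, c, H_le v _ f c fun i _ => h i, ?_⟩
    rw [face_eq v _ f c fun i _ => h i]
    congr 1
    ext i; simp [h2]

lemma H_sub (v : Fin n → E m) {S T : Finset (Fin n)} (hT : FS v T) : Hu v S ⊆ Hu v T ↔ S ⊆ T := by
  refine ⟨fun h i hi => ?_, H_mono v⟩
  obtain ⟨f, c, -, h2⟩ := hT
  exact (h2 i).1 (H_eq v T f c (fun j hj => (h2 j).2 hj) _ (h (mem_H v hi)))

lemma iso (v : Fin n → E m) (C : Set (Set (E m))) (A : Set (Finset (Fin n)))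
    (hA : ∀ S ∈ A, FS v S) (hC : ∀ F, F ∈ C ↔ ∃ S ∈ A, F = Hu v S) : Nonempty (A ≃o C) := by
  let g : A → C := fun S => ⟨Hu v S.1, (hC _).2 ⟨S.1, S.2, rfl⟩⟩
  have hg : ∀ S T : A, g S ≤ g T ↔ S ≤ T := fun S T => H_sub v (hA _ T.2)
  have sj : Function.Surjective g := by
    rintro ⟨F, hF⟩
    obtain ⟨S, hS, rfl⟩ := (hC F).1 hF
    exact ⟨⟨S, hS⟩, rfl⟩
  exact ⟨RelIso.ofSurjective (OrderEmbedding.ofMapLEIff g hg) sj⟩

lemma dim_H (v : Fin n → E m) (S : Finset (Fin n)) :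
    dim (Hu v S) = Module.finrank ℝ (vectorSpan ℝ (v '' (S : Set (Fin n)))) := by
  rw [dim, ← direction_affineSpan, Hu, affineSpan_convexHull, direction_affineSpan]

lemma nb (v : Fin n → E m) (hv : ∀ i, FS v {i}) (i j k : Fin n) (h1 : i ≠ j) (h2 : k ≠ j) :
    ¬ Wbtw ℝ (v i) (v j) (v k) := by
  intro h
  obtain ⟨f, c, a, b⟩ := hv j
  have hi : f (v i) < c := lt_of_le_of_ne (a i) fun e => h1 (by simpa using (b i).1 e)
  have hk : f (v k) < c := lt_of_le_of_ne (a k) fun e => h2 (by simpa using (b k).1 e)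
  have := (convex_halfSpace_lt f.isLinear c).segment_subset hi hk h.mem_segment
  exact absurd ((b j).2 (by simp)) (ne_of_lt this)

lemma dim_le (v : Fin n → E m) (hv : ∀ i, FS v {i}) (S : Finset (Fin n)) :
    dim (Hu v S) ≤ 1 ↔ S.card ≤ 2 := by
  rw [dim_H, ← collinear_iff_finrank_le_one]
  constructor
  · intro h
    by_contra hc
    obtain ⟨i, j, k, hi, hj, hk, ij, ik, jk⟩ := Finset.two_lt_card_iff.1 (not_le.1 hc)
    have : Collinear ℝ {v i, v j, v k} := by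
      apply h.subset
      intro x hx
      rcases hx with rfl | rfl | rfl
      exacts [⟨i, hi, rfl⟩, ⟨j, hj, rfl⟩, ⟨k, hk, rfl⟩]
    rcases this.wbtw_or_wbtw_or_wbtw with a | a | a
    · exact nb v hv i j k ij jk.symm a
    · exact nb v hv j k i jk ik a
    · exact nb v hv k i j ik.symm ij.symm a
  · intro h
    have : S.card = 0 ∨ S.card = 1 ∨ S.card = 2 := by omega
    rcases this with e | e | e
    · rw [Finset.card_eq_zero.1 e]; simp [collinear_empty]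
    · obtain ⟨i, rfl⟩ := Finset.card_eq_one.1 e
      simp [collinear_singleton]
    · obtain ⟨i, j, -, rfl⟩ := Finset.card_eq_two.1 e
      simpa [image_pair] using collinear_pair ℝ (v i) (v j)

lemma mem_skel (v : Fin n → E m) (hv : ∀ i, FS v {i}) (F : Set (E m)) :
    F ∈ skel 1 (Hu v Finset.univ) ↔ ∃ S ∈ {S | FS v S ∧ S.card ≤ 2}, F = Hu v S := by
  constructor
  · rintro ⟨h1, h2⟩
    obtain ⟨S, hS, rfl⟩ := (mem_faces v F).1 h1
    exact ⟨S, ⟨hS, (dim_le v hv S).1 h2⟩, rfl⟩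
  · rintro ⟨S, ⟨h1, h2⟩, rfl⟩
    exact ⟨(mem_faces v _).2 ⟨S, h1, rfl⟩, (dim_le v hv S).2 h2⟩

lemma FS_empty (v : Fin n → E m) : FS v ∅ := ⟨0, 1, by simp, by simp⟩

lemma poly (v : Fin n → E m) (S : Finset (Fin n)) : IsPolytope (Hu v S) := by
  classical
  exact ⟨S.image v, by simp [Hu]⟩

lemma complex (v : Fin n → E m) (hv : ∀ i, FS v {i}) (i j : Fin n) (ij : i ≠ j)
    (e : FS v {i, j}) : IsComplex 1 (skel 1 (Hu v Finset.univ)) := by
  classical
  refine ⟨?_, ?_, ?_, ?_, fun A hA => hA.2, Hu v {i, j}, ?_, ⟨v i, mem_H v (by simp)⟩, ?_⟩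
  · apply (finite_range (Hu v)).subset
    intro F hF
    obtain ⟨S, -, rfl⟩ := (mem_skel v hv F).1 hF
    exact ⟨S, rfl⟩
  · intro F hF
    obtain ⟨S, -, rfl⟩ := (mem_skel v hv F).1 hF
    exact poly v S
  · intro F hF
    obtain ⟨S, ⟨h1, h2⟩, rfl⟩ := (mem_skel v hv F).1 hF
    rintro G ⟨f, c, hf, rfl⟩
    rw [face_eq v S f c fun i hi => hf _ (mem_H v hi), mem_skel v hv]
    have sub := Finset.filter_subset (fun i => f (v i) = c) S
    have le := Finset.card_le_card sub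
    refine ⟨_, ⟨?_, le.trans h2⟩, rfl⟩
    generalize S.filter (fun i => f (v i) = c) = T at sub le
    have : T.card = 0 ∨ T.card = 1 ∨ T.card = 2 := by omega
    rcases this with e | e | e
    · rw [Finset.card_eq_zero.1 e]; exact FS_empty v
    · obtain ⟨i, rfl⟩ := Finset.card_eq_one.1 e
      exact hv i
    · rw [Finset.eq_of_subset_of_card_le sub (by omega)]; exact h1
  · have key : ∀ A ∈ faces (Hu v Finset.univ), ∀ B ∈ faces (Hu v Finset.univ), A ∩ B ∈ faces A := by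
      rintro A ⟨f, c, -, rfl⟩ B ⟨g, d, hg, rfl⟩
      refine ⟨g, d, fun x hx => hg x hx.1, ?_⟩
      ext x
      simp only [mem_inter_iff, mem_ofPred_eq]
      tauto
    intro A hA B hB
    exact ⟨key A hA.1 B hB.1, by rw [inter_comm]; exact key B hB.1 A hA.1⟩
  · exact (mem_skel v hv _).2 ⟨_, ⟨e, Finset.card_le_two⟩, rfl⟩
  · apply le_antisymm ((dim_le v hv _).2 Finset.card_le_two)
    rw [dim_H, Nat.one_le_iff_ne_zero]
    intro h
    have h0 : vectorSpan ℝ (v '' (({i, j} : Finset (Fin n)) : Set (Fin n))) = ⊥ :=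
      Submodule.finrank_eq_zero.1 h
    have h1 := vsub_mem_vectorSpan ℝ (s := v '' (({i, j} : Finset (Fin n)) : Set (Fin n)))
      (p₁ := v i) (p₂ := v j) ⟨i, by simp, rfl⟩ ⟨j, by simp, rfl⟩
    rw [h0, Submodule.mem_bot, vsub_eq_zero_iff_eq] at h1
    exact nb v hv i j i ij ij (by rw [h1]; exact wbtw_self_left ℝ _ _)

lemma perm (A B : Set (Finset (Fin n))) (a0 : ∅ ∈ A) (b0 : ∅ ∈ B) (a1 : ∀ i, {i} ∈ A)
    (b1 : ∀ i, {i} ∈ B) (Φ : A ≃o B) :
    ∃ σ : Equiv.Perm (Fin n), ∀ (S : A) (i : Fin n), σ i ∈ (Φ S).1 ↔ i ∈ S.1 := by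
  have e0 : Φ ⟨∅, a0⟩ = ⟨∅, b0⟩ := by
    apply le_antisymm
    · rw [← Φ.le_symm_apply]
      exact Finset.empty_subset _
    · exact Finset.empty_subset _
  have e1 : ∀ i, ∃ j, Φ ⟨{i}, a1 i⟩ = ⟨{j}, b1 j⟩ := by
    intro i
    have ne : (Φ ⟨{i}, a1 i⟩).1 ≠ ∅ := by
      intro e
      have : Φ ⟨{i}, a1 i⟩ = Φ ⟨∅, a0⟩ := by rw [e0]; exact Subtype.ext e
      simpa using Φ.injective this
    obtain ⟨j, hj⟩ := Finset.nonempty_iff_ne_empty.2 ne
    have le : Φ.symm ⟨{j}, b1 j⟩ ≤ ⟨{i}, a1 i⟩ := by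
      rw [Φ.symm_apply_le]
      exact Finset.singleton_subset_iff.2 hj
    refine ⟨j, ?_⟩
    rcases Finset.subset_singleton_iff.1 le with e | e
    · have : Φ.symm ⟨{j}, b1 j⟩ = ⟨∅, a0⟩ := Subtype.ext e
      rw [Φ.symm_apply_eq, e0] at this
      simp at this
    · have : Φ.symm ⟨{j}, b1 j⟩ = ⟨{i}, a1 i⟩ := Subtype.ext e
      rw [Φ.symm_apply_eq] at this
      exact this.symm
  choose s hs using e1
  have inj : Function.Injective s := by
    intro i j e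
    have : Φ ⟨{i}, a1 i⟩ = Φ ⟨{j}, a1 j⟩ := by rw [hs, hs]; simp [e]
    simpa using Φ.injective this
  refine ⟨Equiv.ofBijective s inj.bijective_of_finite, fun S i => ?_⟩
  have := Φ.le_iff_le (x := ⟨{i}, a1 i⟩) (y := S)
  rw [hs] at this
  exact Finset.singleton_subset_iff.symm.trans (this.trans Finset.singleton_subset_iff)

end Pool.Agent.H.MP_745574_co
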