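import Mathlib
import Pool.Agent.H.MP_745574_co.A

set_option autoImplicit false

namespace Pool.Agent.H.MP_745574_co
open Set

def V1 : List (List ℤ) := [[4, 0, 0, 0],
  [0, 4, 0, 0],
  [-4, -4, 0, 0],
  [0, 0, 4, 0],
  [0, 0, 0, 4],
  [0, 0, -4, -4],
  [2, 2, -3, -1],
  [0, -1, 3, 1],
  [0, -1, -2, -3],
  [0, -1, 1, 2]]

def V2 : List (List ℤ) := [[4, 0, 0, 0],
  [0, 4, 0, 0],
  [0, 0, 4, 0],
  [-4, -4, 0, 0],
  [0, 0, 0, 4],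
  [0, 0, -4, -4],
  [1, 1, -1, 1],
  [-2, -3, 1, 1],
  [0, -1, -2, -3],
  [0, -1, 1, 2]]

def C1 : List (List (List ℤ)) := [[[2, -1, 0, 1, 8],
  [3, 3, 2, -2, 12],
  [2, -4, -1, 0, 8],
  [2, -1, 2, 0, 8],
  [1, 0, 0, 1, 4],
  [1, 0, 0, -1, 4],
  [7, 2, -4, 2, 28],
  [3, -5, 2, 1, 12],
  [5, -8, 3, -6, 20],
  [8, -15, 3, 7, 32]],
  [[3, 3, 2, -2, 12],
  [0, 3, 2, -2, 12],
  [-2, 1, 0, 0, 4],
  [-1, 2, 2, -1, 8],
  [-1, 2, -1, 2, 8],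
  [-1, 2, -1, -1, 8],
  [2, 7, -4, 2, 28],
  [0, 1, 0, -5, 0, 0, 0, 8, 0, -4],
  [-1, 2, -1, -3, 0, -9, 0, 0, 12, 0],
  [0, 1, 0, 0, -4, -1, 0, -4, 0, 8]],
  [[2, -4, -1, 0, 8],
  [-2, 1, 0, 0, 4],
  [-1, -1, -1, 0, 8],
  [-1, -1, 2, 0, 8],
  [-1, -1, -1, 2, 8],
  [-1, -1, -1, -1, 8],
  [-1, -1, 5, 0, -6, -9, 12, 0, 0, 0],
  [2, -5, 2, 1, 12],
  [3, -8, 3, -6, 20],
  [7, -15, 3, 7, 32]],
  [[2, -1, 2, 0, 8],
  [-1, 2, 2, -1, 8],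
  [-1, -1, 2, 0, 8],
  [0, 0, 2, -1, 8],
  [0, 1, 2, 2, 8],
  [0, 1, 2, -4, 8],
  [-6, -6, 0, 5, -1, -4, 12, 0, 0, 0],
  [1, -2, 3, 1, 12],
  [3, -6, 5, -8, 20],
  [0, -1, 0, 5, 0, 0, 0, -8, 0, 4]],
  [[1, 0, 0, 1, 4],
  [-1, 2, -1, 2, 8],
  [-1, -1, -1, 2, 8],
  [0, 1, 2, 2, 8],
  [-1, 1, -1, 2, 8],
  [-2, 0, -6, 3, 12],
  [2, 2, -9, 7, 28],
  [1, -3, 2, 3, 12],
  [-1, 0, -1, 0, 3, -5, 0, 0, 8, -4],
  [4, -8, 2, 5, 20]],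
  [[1, 0, 0, -1, 4],
  [-1, 2, -1, -1, 8],
  [-1, -1, -1, -1, 8],
  [0, 1, 2, -4, 8],
  [-2, 0, -6, 3, 12],
  [-1, 1, -1, -1, 8],
  [1, 1, -7, 1, 24],
  [0, 0, 0, -2, -1, 3, 0, 4, -4, 0],
  [1, -2, 1, -4, 12],
  [0, 0, -1, 0, 0, 3, -2, 0, -2, 2]],
  [[7, 2, -4, 2, 28],
  [2, 7, -4, 2, 28],
  [-1, -1, 5, 0, -6, -9, 12, 0, 0, 0],
  [-6, -6, 0, 5, -1, -4, 12, 0, 0, 0],
  [2, 2, -9, 7, 28],
  [1, 1, -7, 1, 24],
  [1, 1, -2, 1, 9],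
  [-4, -3, 0, 0, -2, -3, 8, 4, 0, 0],
  [-3, -1, -1, 0, 0, -7, 4, 0, 8, 0],
  [-2, -1, 0, 0, -3, -2, 4, 0, 0, 4]],
  [[3, -5, 2, 1, 12],
  [0, 1, 0, -5, 0, 0, 0, 8, 0, -4],
  [2, -5, 2, 1, 12],
  [1, -2, 3, 1, 12],
  [1, -3, 2, 3, 12],
  [0, 0, 0, -2, -1, 3, 0, 4, -4, 0],
  [-4, -3, 0, 0, -2, -3, 8, 4, 0, 0],
  [2, -5, 3, 2, 16],
  [-3, 0, -3, -5, 0, -1, 0, 8, 4, 0],
  [2, -4, 1, 2, 9]],
  [[5, -8, 3, -6, 20],
  [-1, 2, -1, -3, 0, -9, 0, 0, 12, 0],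
  [3, -8, 3, -6, 20],
  [3, -6, 5, -8, 20],
  [-1, 0, -1, 0, 3, -5, 0, 0, 8, -4],
  [1, -2, 1, -4, 12],
  [-3, -1, -1, 0, 0, -7, 4, 0, 8, 0],
  [-3, 0, -3, -5, 0, -1, 0, 8, 4, 0],
  [1, -2, 1, -2, 6],
  [-3, -1, -3, 0, 0, -1, 0, 0, 4, 4]],
  [[8, -15, 3, 7, 32],
  [0, 1, 0, 0, -4, -1, 0, -4, 0, 8],
  [7, -15, 3, 7, 32],
  [0, -1, 0, 5, 0, 0, 0, -8, 0, 4],
  [4, -8, 2, 5, 20],
  [0, 0, -1, 0, 0, 3, -2, 0, -2, 2],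
  [-2, -1, 0, 0, -3, -2, 4, 0, 0, 4],
  [2, -4, 1, 2, 9],
  [-3, -1, -3, 0, 0, -1, 0, 0, 4, 4],
  [9, -18, 4, 9, 40]]]

def C2 : List (List (List ℤ)) := [[[2, -1, 0, 0, 8],
  [2, 2, 0, -1, 8],
  [2, -1, 2, 0, 8],
  [2, -4, -1, 0, 8],
  [1, 0, 0, 1, 4],
  [2, 0, -1, -1, 8],
  [4, 3, -6, 3, 16],
  [3, -5, 2, 1, 12],
  [5, -8, 3, -6, 20],
  [8, -11, 7, 7, 32]],
  [[2, 2, 0, -1, 8],
  [-1, 2, 0, -1, 8],
  [-1, 2, 2, -1, 8],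
  [-2, 1, 0, 0, 4],
  [-1, 2, 0, 2, 8],
  [-1, 2, -1, -1, 8],
  [3, 4, -6, 3, 16],
  [0, 1, -1, -4, 0, 0, 0, 8, 0, -4],
  [-1, 2, -3, -1, 0, -9, 0, 0, 12, 0],
  [-2, 1, -3, -2, -6, 0, 0, 0, 0, 12]],
  [[2, -1, 2, 0, 8],
  [-1, 2, 2, -1, 8],
  [0, 0, 2, -1, 8],
  [-1, -1, 2, 0, 8],
  [0, 1, 2, 2, 8],
  [0, 1, 2, -4, 8],
  [-3, -3, 1, 0, -5, -2, 12, 0, 0, 0],
  [2, -4, 3, 1, 12],
  [3, -6, 5, -8, 20],
  [7, -10, 8, 7, 32]],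
  [[2, -4, -1, 0, 8],
  [-2, 1, 0, 0, 4],
  [-1, -1, 2, 0, 8],
  [-1, -1, -1, 0, 8],
  [-1, -1, 0, 2, 8],
  [-1, -1, -1, -1, 8],
  [0, -1, 0, 2, -5, 0, 8, 0, -4, 0],
  [1, -4, 1, 1, 12],
  [3, -8, 3, -6, 20],
  [-1, 0, -1, 1, -3, 0, 0, -4, 0, 8]],
  [[1, 0, 0, 1, 4],
  [-1, 2, 0, 2, 8],
  [0, 1, 2, 2, 8],
  [-1, -1, 0, 2, 8],
  [0, 1, 0, 2, 8],
  [1, -1, -4, 2, 8],
  [2, 2, -5, 3, 12],
  [1, -3, 2, 3, 12],
  [-1, 0, 0, -1, 3, -5, 0, 0, 8, -4],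
  [4, -6, 4, 5, 20]],
  [[2, 0, -1, -1, 8],
  [-1, 2, -1, -1, 8],
  [0, 1, 2, -4, 8],
  [-1, -1, -1, -1, 8],
  [1, -1, -4, 2, 8],
  [0, 0, -1, -1, 8],
  [3, 3, -7, 3, 16],
  [0, 0, 0, -2, -1, 3, 0, 4, -4, 0],
  [1, -2, 1, -4, 12],
  [-2, -1, 0, 0, -2, 1, 0, -4, 0, 8]],
  [[4, 3, -6, 3, 16],
  [3, 4, -6, 3, 16],
  [-3, -3, 1, 0, -5, -2, 12, 0, 0, 0],
  [0, -1, 0, 2, -5, 0, 8, 0, -4, 0],
  [2, 2, -5, 3, 12],
  [3, 3, -7, 3, 16],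
  [1, 1, -2, 1, 5],
  [-2, -1, 0, -3, -2, 0, 4, 4, 0, 0],
  [-1, 0, -1, 0, -2, -4, 4, 0, 4, 0],
  [-2, 0, -3, 0, -11, 0, 8, 0, -4, 12]],
  [[3, -5, 2, 1, 12],
  [0, 1, -1, -4, 0, 0, 0, 8, 0, -4],
  [2, -4, 3, 1, 12],
  [1, -4, 1, 1, 12],
  [1, -3, 2, 3, 12],
  [0, 0, 0, -2, -1, 3, 0, 4, -4, 0],
  [-2, -1, 0, -3, -2, 0, 4, 4, 0, 0],
  [2, -5, 3, 2, 16],
  [-3, 0, -1, -7, 0, -1, 0, 8, 4, 0],
  [2, -3, 2, 2, 9]],
  [[5, -8, 3, -6, 20],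
  [-1, 2, -3, -1, 0, -9, 0, 0, 12, 0],
  [3, -6, 5, -8, 20],
  [3, -8, 3, -6, 20],
  [-1, 0, 0, -1, 3, -5, 0, 0, 8, -4],
  [1, -2, 1, -4, 12],
  [-1, 0, -1, 0, -2, -4, 4, 0, 4, 0],
  [-3, 0, -1, -7, 0, -1, 0, 8, 4, 0],
  [1, -2, 1, -2, 6],
  [-3, -1, 0, -3, 0, -1, 0, 0, 4, 4]],
  [[8, -11, 7, 7, 32],
  [-2, 1, -3, -2, -6, 0, 0, 0, 0, 12],
  [7, -10, 8, 7, 32],
  [-1, 0, -1, 1, -3, 0, 0, -4, 0, 8],
  [4, -6, 4, 5, 20],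
  [-2, -1, 0, 0, -2, 1, 0, -4, 0, 8],
  [-2, 0, -3, 0, -11, 0, 8, 0, -4, 12],
  [2, -3, 2, 2, 9],
  [-3, -1, 0, -3, 0, -1, 0, 0, 4, 4],
  [9, -13, 9, 9, 40]]]

def AD : List (List ℕ) := [[0, 1, 1, 1, 1, 1, 1, 1, 1, 1],
  [1, 0, 1, 1, 1, 1, 1, 0, 0, 0],
  [1, 1, 0, 1, 1, 1, 0, 1, 1, 1],
  [1, 1, 1, 0, 1, 1, 0, 1, 1, 0],
  [1, 1, 1, 1, 0, 1, 1, 1, 0, 1],
  [1, 1, 1, 1, 1, 0, 1, 0, 1, 0],
  [1, 1, 0, 0, 1, 1, 0, 0, 0, 0],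
  [1, 0, 1, 1, 1, 0, 0, 0, 0, 1],
  [1, 0, 1, 1, 0, 1, 0, 0, 0, 0],
  [1, 0, 1, 0, 1, 0, 0, 1, 0, 0]]

def adj (i j : Fin 10) : Bool := (AD.getD i []).getD j 0 == 1

def co (V : List (List ℤ)) (i : Fin 10) (a : Fin 4) : ℤ := (V.getD i []).getD a 0

noncomputable def pt (V : List (List ℤ)) (i : Fin 10) : E 4 := WithLp.toLp 2 fun a => (co V i a : ℝ)

def ev (V : List (List ℤ)) (l : List ℤ) (k : Fin 10) : ℤ := ∑ a : Fin 4, l.getD a 0 * co V k a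

def Yes (V : List (List ℤ)) (l : List ℤ) (S : Finset (Fin 10)) : Prop :=
  ∀ k, ev V l k ≤ l.getD 4 0 ∧ (ev V l k = l.getD 4 0 ↔ k ∈ S)

def No (V : List (List ℤ)) (l : List ℤ) (S : Finset (Fin 10)) : Prop :=
  ∑ k : Fin 10, l.getD k 0 = 0 ∧ (∀ a : Fin 4, ∑ k : Fin 10, l.getD k 0 * co V k a = 0) ∧
    (∀ k : Fin 10, k ∉ S → l.getD k 0 ≤ 0) ∧ ∃ k : Fin 10, k ∉ S ∧ l.getD k 0 < 0

instance (V : List (List ℤ)) (l : List ℤ) (S : Finset (Fin 10)) : Decidable (Yes V l S) := by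
  unfold Yes; infer_instance

instance (V : List (List ℤ)) (l : List ℤ) (S : Finset (Fin 10)) : Decidable (No V l S) := by
  unfold No; infer_instance

def Ok (V : List (List ℤ)) (C : List (List (List ℤ))) : Prop :=
  ∀ i j : Fin 10, if adj i j = true ∨ i = j then Yes V ((C.getD i []).getD j []) {i, j}
    else No V ((C.getD i []).getD j []) {i, j}

instance (V : List (List ℤ)) (C : List (List (List ℤ))) : Decidable (Ok V C) := by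
  unfold Ok; infer_instance

lemma ok1 : Ok V1 C1 := by decide +kernel

lemma ok2 : Ok V2 C2 := by decide +kernel

lemma yes (V : List (List ℤ)) (l : List ℤ) (S : Finset (Fin 10)) (h : Yes V l S) :
    FS (pt V) S := by
  let f : E 4 →ₗ[ℝ] ℝ :=
    ∑ a : Fin 4, (l.getD a 0 : ℝ) • (EuclideanSpace.proj a : E 4 →L[ℝ] ℝ).toLinearMap
  have e : ∀ k, f (pt V k) = (ev V l k : ℝ) := by
    intro k
    simp [f, ev, pt]
  refine ⟨f, (l.getD 4 0 : ℝ), fun k => ?_, fun k => ?_⟩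
  · rw [e]; exact_mod_cast (h k).1
  · rw [e, ← (h k).2]; exact Int.cast_inj

lemma no (V : List (List ℤ)) (l : List ℤ) (S : Finset (Fin 10)) (h : No V l S) :
    ¬ FS (pt V) S := by
  rintro ⟨f, c, h1, h2⟩
  obtain ⟨a, b, d, k, hk, hk2⟩ := h
  have z : ∑ k : Fin 10, (l.getD k 0 : ℝ) • pt V k = 0 := by
    ext t
    have := b t
    simp only [pt, WithLp.ofLp_sum, WithLp.ofLp_smul, Finset.sum_apply, Pi.smul_apply, smul_eq_mul,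
      WithLp.ofLp_zero, Pi.zero_apply]
    exact_mod_cast this
  have z2 : ∑ k : Fin 10, (l.getD k 0 : ℝ) * (f (pt V k) - c) = 0 := by
    have a' : ∑ k : Fin 10, (l.getD k 0 : ℝ) = 0 := by exact_mod_cast a
    have := congrArg f z
    simp only [map_sum, map_smul, smul_eq_mul, map_zero] at this
    simp only [mul_sub, Finset.sum_sub_distrib, ← Finset.sum_mul, a', this]
    simp
  have nn : ∀ j ∈ Finset.univ, 0 ≤ (l.getD (j : Fin 10) 0 : ℝ) * (f (pt V j) - c) := by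
    intro j _
    by_cases hj : j ∈ S
    · rw [(h2 j).2 hj]; simp
    · exact mul_nonneg_of_nonpos_of_nonpos (by exact_mod_cast d j hj) (sub_nonpos.2 (h1 j))
  have := (Finset.sum_eq_zero_iff_of_nonneg nn).1 z2 k (Finset.mem_univ k)
  rcases mul_eq_zero.1 this with e | e
  · exact absurd (by exact_mod_cast e) hk2.ne
  · exact hk ((h2 k).1 (by linarith))

lemma pair (V : List (List ℤ)) (C : List (List (List ℤ))) (h : Ok V C) (i j : Fin 10) :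
    FS (pt V) {i, j} ↔ adj i j = true ∨ i = j := by
  have := h i j
  split_ifs at this with e
  · exact ⟨fun _ => e, fun _ => yes _ _ _ this⟩
  · exact ⟨fun a => absurd a (no _ _ _ this), fun a => absurd a e⟩

lemma single (V : List (List ℤ)) (C : List (List (List ℤ))) (h : Ok V C) (i : Fin 10) :
    FS (pt V) {i} := by
  simpa using (pair V C h i i).2 (Or.inr rfl)

def wk : ℕ → Fin 10 → ℕ
  | 0, _ => 1
  | t + 1, i => ∑ j : Fin 10, if adj i j = true ∨ i = j then wk t j else 0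

lemma wk_inj : ∀ i j, wk 3 i = wk 3 j → i = j := by decide +kernel

lemma asym (σ : Equiv.Perm (Fin 10))
    (h : ∀ i j, (adj (σ i) (σ j) = true ∨ σ i = σ j) ↔ (adj i j = true ∨ i = j)) (i : Fin 10) :
    σ i = i := by
  have : ∀ t i, wk t (σ i) = wk t i := by
    intro t
    induction t with
    | zero => intro i; rfl
    | succ t ih =>
      intro i
      simp only [wk]
      rw [← Equiv.sum_comp σ]
      exact Finset.sum_congr rfl fun j _ => by rw [ih j]; exact if_congr (h i j) rfl rfl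
  exact wk_inj _ _ (this 3 i)

lemma rigid (A B : Set (Finset (Fin 10))) (a0 : ∅ ∈ A) (b0 : ∅ ∈ B)
    (a2 : ∀ i j, {i, j} ∈ A ↔ adj i j = true ∨ i = j)
    (b2 : ∀ i j, {i, j} ∈ B ↔ adj i j = true ∨ i = j) (Φ : A ≃o B) (S : A) : (Φ S).1 = S.1 := by
  obtain ⟨σ, hσ⟩ := perm A B a0 b0 (fun i => by simpa using (a2 i i).2 (Or.inr rfl))
    (fun i => by simpa using (b2 i i).2 (Or.inr rfl)) Φ
  have key : ∀ i j, (adj (σ i) (σ j) = true ∨ σ i = σ j) ↔ (adj i j = true ∨ i = j) := by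
    intro i j
    rw [← b2, ← a2]
    constructor
    · intro h
      have e : (Φ.symm ⟨_, h⟩).1 = {i, j} := by
        ext k
        rw [← hσ, Φ.apply_symm_apply]
        simp
      rw [← e]; exact (Φ.symm ⟨_, h⟩).2
    · intro h
      have e : (Φ ⟨_, h⟩).1 = {σ i, σ j} := by
        ext k
        obtain ⟨k, rfl⟩ := σ.surjective k
        rw [hσ]
        simp
      rw [← e]; exact (Φ ⟨_, h⟩).2
  ext k
  rw [← hσ S k, asym σ key k]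

def G : Set (Finset (Fin 10)) := {S | S = ∅ ∨ ∃ i j, (adj i j = true ∨ i = j) ∧ S = {i, j}}

lemma G_eq (V : List (List ℤ)) (C : List (List (List ℤ))) (h : Ok V C) :
    {S | FS (pt V) S ∧ S.card ≤ 2} = G := by
  ext S
  constructor
  · rintro ⟨h1, h2⟩
    have : S.card = 0 ∨ S.card = 1 ∨ S.card = 2 := by omega
    rcases this with e | e | e
    · exact Or.inl (Finset.card_eq_zero.1 e)
    · obtain ⟨i, rfl⟩ := Finset.card_eq_one.1 e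
      exact Or.inr ⟨i, i, Or.inr rfl, by simp⟩
    · obtain ⟨i, j, -, rfl⟩ := Finset.card_eq_two.1 e
      exact Or.inr ⟨i, j, (pair V C h i j).1 h1, rfl⟩
  · rintro (rfl | ⟨i, j, a, rfl⟩)
    · exact ⟨FS_empty _, by simp⟩
    · exact ⟨(pair V C h i j).2 a, Finset.card_le_two⟩

lemma G_iso (V : List (List ℤ)) (C : List (List (List ℤ))) (h : Ok V C) :
    Nonempty (G ≃o skel 1 (Hu (pt V) Finset.univ)) := by
  rw [← G_eq V C h]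
  exact iso _ _ _ (fun S hS => hS.1) (mem_skel _ (single V C h))

lemma G_rigid (Φ : G ≃o G) (S : G) : Φ S = S := by
  have a2 : ∀ i j, {i, j} ∈ G ↔ adj i j = true ∨ i = j := by
    intro i j
    rw [← G_eq V1 C1 ok1, ← pair V1 C1 ok1]
    exact ⟨fun h => h.1, fun h => ⟨h, Finset.card_le_two⟩⟩
  exact Subtype.ext (rigid G G (Or.inl rfl) (Or.inl rfl) a2 a2 Φ S)

lemma dim4 (V : List (List ℤ)) (M : List (List ℤ))
    (h : ∀ a : Fin 4, ∑ k : Fin 10, (M.getD a []).getD k 0 = 0 ∧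
      ∀ b : Fin 4, ∑ k : Fin 10, (M.getD a []).getD k 0 * co V k b = if b = a then 12 else 0) :
    IsDPolytope 4 (Hu (pt V) Finset.univ) := by
  refine ⟨poly _ _, ⟨_, mem_H (pt V) (Finset.mem_univ 0)⟩, ?_⟩
  have top : vectorSpan ℝ (Hu (pt V) Finset.univ) = ⊤ := by
    rw [eq_top_iff, ← (EuclideanSpace.basisFun (Fin 4) ℝ).toBasis.span_eq, Submodule.span_le]
    rintro _ ⟨a, rfl⟩
    have e : (EuclideanSpace.basisFun (Fin 4) ℝ).toBasis a =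
        (1 / 12 : ℝ) • ∑ k : Fin 10, ((M.getD a []).getD k 0 : ℝ) • (pt V k -ᵥ pt V 0) := by
      ext b
      have h1 : ∑ k : Fin 10, ((M.getD a []).getD k 0 : ℝ) = 0 := by exact_mod_cast (h a).1
      have h2 : ∑ k : Fin 10, ((M.getD a []).getD k 0 : ℝ) * co V k b = if b = a then 12 else 0 := by
        exact_mod_cast (h a).2 b
      simp only [pt, vsub_eq_sub, WithLp.ofLp_sum, WithLp.ofLp_smul, WithLp.ofLp_sub,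
        Finset.sum_apply, Pi.smul_apply, Pi.sub_apply, smul_eq_mul, mul_sub,
        Finset.sum_sub_distrib, ← Finset.sum_mul, h1, h2]
      by_cases hb : b = a <;> simp [hb]
    rw [e]
    exact Submodule.smul_mem _ _ (Submodule.sum_mem _ fun k _ => Submodule.smul_mem _ _
      (vsub_mem_vectorSpan ℝ (mem_H _ (Finset.mem_univ _)) (mem_H _ (Finset.mem_univ _))))
  rw [dim, top]; simp

lemma main : ∃ C : Set (Set (E 4)), IsComplex 1 C ∧ Strong 4 1 C ∧ ¬ Weak 4 1 C := by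
  obtain ⟨α⟩ := G_iso V1 C1 ok1
  obtain ⟨β⟩ := G_iso V2 C2 ok2
  refine ⟨skel 1 (Hu (pt V1) Finset.univ),
    complex _ (single V1 C1 ok1) 0 1 (by decide) ((pair V1 C1 ok1 0 1).2 (by decide)),
    ⟨4, 4, Hu (pt V1) Finset.univ, Hu (pt V2) Finset.univ, ?_, ?_, ⟨fun Φ => ?_⟩,
      ⟨OrderIso.refl _⟩, ⟨α.symm.trans β⟩, ⟨α.symm.trans β⟩⟩, ?_⟩
  · exact dim4 V1 [[2, -1, -1], [-1, 2, -1], [0, 0, 0, 2, -1, -1], [0, 0, 0, -1, 2, -1]]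
      (by decide +kernel)
  · exact dim4 V2 [[2, -1, 0, -1], [-1, 2, 0, -1], [0, 0, 2, 0, -1, -1], [0, 0, -1, 0, 2, -1]]
      (by decide +kernel)
  · obtain ⟨a⟩ := iso (pt V1) _ {S | FS (pt V1) S} (fun S hS => hS) (mem_faces _)
    obtain ⟨b⟩ := iso (pt V2) _ {S | FS (pt V2) S} (fun S hS => hS) (mem_faces _)
    have y : FS (pt V1) {0, 2, 4, 5} := yes V1 [1, -2, -2, 1, 4] _ (by decide +kernel)
    have := rigid _ _ (FS_empty _) (FS_empty _) (pair V1 C1 ok1) (pair V2 C2 ok2)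
      (a.trans (Φ.trans b.symm)) ⟨_, y⟩
    refine no V2 [-1, -1, 1, -1, 1, 1] {0, 2, 4, 5} (by decide +kernel) ?_
    have h2 := ((a.trans (Φ.trans b.symm)) ⟨_, y⟩).2
    rwa [this] at h2
  · rintro ⟨a, Q, -, φ, ψ, h⟩
    refine h ⟨OrderIso.refl _, fun F => ?_⟩
    have := G_rigid (α.trans (φ.trans (ψ.symm.trans α.symm))) (α.symm (ψ.symm F))
    simp only [OrderIso.trans_apply, OrderIso.apply_symm_apply, EmbeddingLike.apply_eq_iff_eq]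
      at this
    rw [this]
    rfl

end Pool.Agent.H.MP_745574_co
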